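import Pool.Agent.N343.AM.Stm

/-!
Project AM (helper343), part GRP: regrouping a suffix of a concatenation into words of the next level
(helper300).
-/

set_option autoImplicit false

open Finset

namespace Pool.Agent.N300.AM

open Pool.Agent.N343.AM

theorem star_append {W : Set Wd} {s t : Wd} (hs : s ∈ star W) (ht : t ∈ star W) :
    s ++ t ∈ star W := by
  obtain ⟨l, hl, rfl⟩ := hs
  obtain ⟨l', hl', rfl⟩ := ht
  refine ⟨l ++ l', ?_, by rw [List.flatten_append]⟩
  intro w hw
  rcases List.mem_append.1 hw with h | h
  · exact hl w h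
  · exact hl' w h

theorem star_single {W : Set Wd} {s : Wd} (hs : s ∈ W) : s ∈ star W :=
  ⟨[s], by simpa using hs, by simp⟩

theorem hl_mono (u v : Wd) {n k : ℕ} (h : n ≤ k) : hl u v n ≤ hl u v k := by
  unfold hl
  refine card_le_card (filter_subset_filter _ ?_)
  exact range_subset_range.2 h

theorem hl_congr {u u' v v' : Wd} {n : ℕ} (hu : ∀ i < n, u[i]? = u'[i]?)
    (hv : ∀ i < n, v[i]? = v'[i]?) : hl u v n = hl u' v' n := by
  unfold hl
  congr 1
  refine filter_congr fun i hi => ?_
  rw [mem_range] at hi
  rw [hu i hi, hv i hi]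

/-- one group -/
theorem one (hF : S_FRO) (hC : S_CUT) {W : Set Wd} {m : ℕ} {P : Wd} {M : ℕ} (hW : Lv W m)
    (hP : P ∈ star W) (hM : DD P m ≤ M) {s : Wd} (hs : s ∈ Suf W) (hsM : M ≤ s.length) :
    ∃ G ∈ nxt W P M, G.length = M ∧ hl s G M ≤ DD P m := by
  obtain ⟨c1, c2, -, -⟩ := hC W m hW
  have hD : DD P m = P.length + 2 * (m ^ 2 + m + 1) := rfl
  obtain ⟨a, b, hb, hsab, ha1, ha2⟩ := c2 s hs (P.length + m ^ 2) (by omega)
  have hlen : s.length = a.length + b.length := by rw [hsab, List.length_append]
  obtain ⟨b1, hb1, b2, hb2, hbb, hb3, hb4⟩ := c1 b hb (M - m ^ 2 - a.length) (by omega)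
  obtain ⟨f', hf', hf'l⟩ := hF W m hW (a.length - P.length) (by omega)
  obtain ⟨f'', hf'', hf''l⟩ := hF W m hW (M - (a.length + b1.length)) (by omega)
  have hG : P ++ (f' ++ (b1 ++ f'')) = (P ++ f') ++ (b1 ++ f'') := by
    rw [List.append_assoc]
  have hGl : (P ++ (f' ++ (b1 ++ f''))).length = M := by
    simp only [List.length_append]
    omega
  refine ⟨P ++ (f' ++ (b1 ++ f'')), ⟨Or.inl hGl, f' ++ (b1 ++ f''),
    star_append hf' (star_append hb1 hf''), rfl⟩, hGl, ?_⟩
  have hPf : (P ++ f').length = a.length := by
    rw [List.length_append]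
    omega
  have hsub : (range M).filter (fun i => s[i]? ≠ (P ++ (f' ++ (b1 ++ f'')))[i]?) ⊆
      range a.length ∪ Ico (a.length + b1.length) M := by
    intro i hi
    rw [mem_filter, mem_range] at hi
    rw [mem_union, mem_range, mem_Ico]
    by_contra hcon
    push Not at hcon
    obtain ⟨h1, h2⟩ := hcon
    have h3 : i < a.length + b1.length := by
      by_contra h4
      have h5 := h2 (by omega)
      omega
    apply hi.2
    rw [hG, List.getElem?_append_right (by omega), hPf, List.getElem?_append_left (by omega), hsab,
      List.getElem?_append_right (by omega), hbb, List.getElem?_append_left (by omega)]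
  have hcard := card_le_card hsub
  have hcard2 := card_union_le (range a.length) (Ico (a.length + b1.length) M)
  rw [card_range, Nat.card_Ico] at hcard2
  unfold hl
  omega

theorem suf_drop {W : Set Wd} {s : Wd} (hs : s ∈ Suf W) (M : ℕ) : s.drop M ∈ Suf W := by
  obtain ⟨a, ha⟩ := hs
  refine ⟨a ++ s.take M, ?_⟩
  rw [List.append_assoc, List.take_append_drop]
  exact ha

theorem suf_append {W : Set Wd} {s t : Wd} (hs : s ∈ Suf W) (ht : t ∈ star W) :
    s ++ t ∈ Suf W := by
  obtain ⟨a, ha⟩ := hs
  refine ⟨a, ?_⟩
  rw [← List.append_assoc]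
  exact star_append ha ht

theorem main (hF : S_FRO) (hC : S_CUT) : S_GRP := by
  intro W m P M hW hP hM s hs
  have hD : DD P m = P.length + 2 * (m ^ 2 + m + 1) := rfl
  have hM1 : 1 ≤ M := by omega
  induction hn : s.length using Nat.strong_induction_on generalizing s with
  | _ k ih =>
    subst hn
    rcases Nat.lt_or_ge s.length M with hlt | hge
    · obtain ⟨F, hFs, hFl⟩ := hF W m hW (M + m ^ 2) (by omega)
      obtain ⟨G, hG, hGl, hGh⟩ := one hF hC hW hP hM (suf_append hs hFs)
        (by rw [List.length_append]; omega)
      refine ⟨G, star_single hG, by omega, fun n hn => ?_⟩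
      have h1 : hl s G n = hl (s ++ F) G n := by
        refine hl_congr (fun i hi => ?_) fun _ _ => rfl
        rw [List.getElem?_append_left (by omega)]
      rw [h1]
      have h2 : hl (s ++ F) G n ≤ hl (s ++ F) G M := hl_mono _ _ (by omega)
      refine (h2.trans hGh).trans (Nat.le_mul_of_pos_right _ (Nat.succ_pos _))
    · obtain ⟨G, hG, hGl, hGh⟩ := one hF hC hW hP hM hs hge
      obtain ⟨G', hG', hG'l, hG'h⟩ := ih (s.drop M).length
        (by rw [List.length_drop]; omega) (s.drop M) (suf_drop hs M) rfl
      rw [List.length_drop] at hG'l hG'h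
      refine ⟨G ++ G', star_append (star_single hG) hG', by rw [List.length_append]; omega,
        fun n hn => ?_⟩
      have h0 : hl s (G ++ G') M = hl s G M := by
        refine hl_congr (fun _ _ => rfl) fun i hi => ?_
        rw [List.getElem?_append_left (by omega)]
      rcases Nat.le_total n M with hnM | hnM
      · have h2 : hl s (G ++ G') n ≤ hl s (G ++ G') M := hl_mono _ _ hnM
        rw [h0] at h2
        exact (h2.trans hGh).trans (Nat.le_mul_of_pos_right _ (Nat.succ_pos _))
      · have h3 : hl s (G ++ G') n ≤ hl s (G ++ G') M + hl (s.drop M) G' (n - M) := by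
          unfold hl
          have hsub : (range n).filter (fun i => s[i]? ≠ (G ++ G')[i]?) ⊆
              (range M).filter (fun i => s[i]? ≠ (G ++ G')[i]?) ∪
              ((range (n - M)).filter (fun i => (s.drop M)[i]? ≠ G'[i]?)).image (fun i => i + M) := by
            intro i hi
            rw [mem_filter, mem_range] at hi
            rw [mem_union]
            by_cases hiM : i < M
            · left
              rw [mem_filter, mem_range]
              exact ⟨hiM, hi.2⟩
            · right
              rw [mem_image]
              refine ⟨i - M, ?_, by omega⟩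
              rw [mem_filter, mem_range]
              refine ⟨by omega, ?_⟩
              intro heq
              apply hi.2
              rw [List.getElem?_append_right (by omega), hGl, ← heq, List.getElem?_drop]
              congr 1
              omega
          exact (card_le_card hsub).trans ((card_union_le _ _).trans
            (Nat.add_le_add_left card_image_le _))
        have h4 := hG'h (n - M) (by omega)
        have h5 : (n - M) / M + 1 = n / M := by
          obtain ⟨r, rfl⟩ := Nat.exists_eq_add_of_le hnM
          rw [Nat.add_sub_cancel_left, Nat.add_div_left _ (by omega)]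
        rw [h5] at h4
        rw [h0] at h3
        calc hl s (G ++ G') n ≤ hl s G M + hl (s.drop M) G' (n - M) := h3
          _ ≤ DD P m + DD P m * (n / M) := Nat.add_le_add hGh h4
          _ = _ := by ring

end Pool.Agent.N300.AM
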